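import Mathlib

/-! Numbers for the weighted sparsifier (MP_3fccc5_lc, plan of helper39). -/

set_option autoImplicit false

namespace Pool.Agent.Helper33.WM

open Finset

/-- the average of the bottoms of a real number over the `J` shifted grids of ratio two -/
noncomputable def kappa (J : ℕ) : ℝ := (1 / (J : ℝ)) * ∑ s ∈ range J, (2 : ℝ) ^ (-(((s : ℝ) + 1) / J))

theorem kappa_ge (J : ℕ) (hJ : 1 ≤ J) : (1 - Real.log 2 / J) / (2 * Real.log 2) ≤ kappa J := by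
  have hJR : (0 : ℝ) < J := by exact_mod_cast hJ
  have hl : 0 < Real.log 2 := Real.log_pos (by norm_num)
  set r : ℝ := (2 : ℝ) ^ (-(1 / (J : ℝ))) with hr
  have hr0 : 0 < r := by positivity
  have hr1 : r < 1 := Real.rpow_lt_one_of_one_lt_of_neg (by norm_num) (by
    have : 0 < 1 / (J : ℝ) := by positivity
    linarith)
  have hterm : ∀ s ∈ range J, (2 : ℝ) ^ (-(((s : ℝ) + 1) / J)) = r * r ^ s := by
    intro s _
    rw [hr, ← Real.rpow_natCast, ← Real.rpow_mul (by norm_num), ← Real.rpow_add (by norm_num)]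
    congr 1
    field_simp
    ring
  have hrJ : r ^ J = 1 / 2 := by
    rw [hr, ← Real.rpow_natCast, ← Real.rpow_mul (by norm_num)]
    have : -(1 / (J : ℝ)) * J = -1 := by field_simp
    rw [this, Real.rpow_neg_one]
    norm_num
  have hsum : ∑ s ∈ range J, (2 : ℝ) ^ (-(((s : ℝ) + 1) / J)) = r * (1 / 2) / (1 - r) := by
    rw [Finset.sum_congr rfl hterm, ← Finset.mul_sum, geom_sum_eq hr1.ne, hrJ]
    have : (r - 1) ≠ 0 := by linarith
    have h2 : (1 - r) ≠ 0 := by linarith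
    field_simp
    ring
  have hre : r = Real.exp (-(Real.log 2 / J)) := by
    rw [hr, Real.rpow_def_of_pos (by norm_num)]
    congr 1
    ring
  have h1 : 1 - Real.log 2 / J ≤ r := by
    rw [hre]
    have := Real.add_one_le_exp (-(Real.log 2 / (J : ℝ)))
    linarith
  have h2 : (J : ℝ) * (1 - r) ≤ Real.log 2 := by
    have : (J : ℝ) * (1 - r) ≤ J * (Real.log 2 / J) := mul_le_mul_of_nonneg_left (by linarith) hJR.le
    rwa [mul_div_cancel₀ _ hJR.ne'] at this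
  have h3 : 0 < (J : ℝ) * (1 - r) := mul_pos hJR (by linarith)
  have hk : kappa J = r / (2 * (J * (1 - r))) := by
    unfold kappa
    rw [hsum]
    have h4 : (1 - r) ≠ 0 := by linarith
    field_simp
  rw [hk]
  calc (1 - Real.log 2 / J) / (2 * Real.log 2) ≤ r / (2 * Real.log 2) :=
        div_le_div_of_nonneg_right h1 (by positivity)
    _ ≤ r / (2 * (J * (1 - r))) :=
        div_le_div_of_nonneg_left hr0.le (by positivity) (by linarith)

/-- `κ_J` is almost `1 / (2 log 2)` for large `J` -/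
theorem kappa_large (ε : ℝ) (hε : 0 < ε) : ∃ J : ℕ, 1 ≤ J ∧
    (1 - ε) / (2 * Real.log 2) ≤ (1 / (J : ℝ)) * ∑ s ∈ range J, (2 : ℝ) ^ (-(((s : ℝ) + 1) / J)) := by
  have hl : 0 < Real.log 2 := Real.log_pos (by norm_num)
  refine ⟨⌈Real.log 2 / ε⌉₊ + 1, by omega, ?_⟩
  refine le_trans ?_ (kappa_ge (⌈Real.log 2 / ε⌉₊ + 1) (by omega))
  apply div_le_div_of_nonneg_right _ (by positivity)
  have h1 : Real.log 2 / ε ≤ (⌈Real.log 2 / ε⌉₊ : ℝ) := Nat.le_ceil _
  have h2 : (0 : ℝ) < ((⌈Real.log 2 / ε⌉₊ + 1 : ℕ) : ℝ) := by positivity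
  have h3 : Real.log 2 / ((⌈Real.log 2 / ε⌉₊ + 1 : ℕ) : ℝ) ≤ ε := by
    rw [div_le_iff₀ h2]
    rw [div_le_iff₀ hε] at h1
    push_cast
    nlinarith
  linarith

/-- the constant: `1 + (k + 1) log 2 (1 + ε) ≤ k - 1` for `k ≥ 9`, `ε ≤ 1 / 200` -/
theorem num_ge_nine (k : ℕ) (hk : 9 ≤ k) (ε : ℝ) (hε : 0 ≤ ε) (hε' : ε ≤ 1 / 200) :
    1 + ((k : ℝ) + 1) * Real.log 2 * (1 + ε) ≤ (k : ℝ) - 1 := by
  have hkR : (9 : ℝ) ≤ k := by exact_mod_cast hk
  have hl : 0 < Real.log 2 := Real.log_pos (by norm_num)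
  have hl2 : Real.log 2 < 0.6931471808 := Real.log_two_lt_d9
  have h1 : Real.log 2 * (1 + ε) ≤ 0.6931471808 * (1 + 1 / 200) := by
    apply mul_le_mul hl2.le (by linarith) (by linarith) (by norm_num)
  have h2 : ((k : ℝ) + 1) * (Real.log 2 * (1 + ε)) ≤ ((k : ℝ) + 1) * (0.6931471808 * (1 + 1 / 200)) :=
    mul_le_mul_of_nonneg_left h1 (by linarith)
  rw [mul_assoc]
  linarith

theorem ratio_ge_nine (k : ℕ) (hk : 9 ≤ k) (ε : ℝ) (hε : 0 ≤ ε) (hε' : ε ≤ 1 / 200) :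
    1 / ((k : ℝ) - 1) ≤ 1 / (1 + ((k : ℝ) + 1) * Real.log 2 * (1 + ε)) := by
  have hl : 0 < Real.log 2 := Real.log_pos (by norm_num)
  have hkR : (9 : ℝ) ≤ k := by exact_mod_cast hk
  exact div_le_div_of_nonneg_left (by norm_num) (by positivity) (num_ge_nine k hk ε hε hε')

end Pool.Agent.Helper33.WM
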